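import Mathlib

set_option autoImplicit false

/-!
# Best approximations of algebraic arrangements need not lie on the sails

Let `R` be the arrangement of the two eigenlines of `!![1001, -1000999; 1, -1000]`, that is, the
golden arrangement translated by `1000`.  For all large `N` every best approximation `R_N` has a
primitive vector that lies on none of the four sails of `R`.

Reason.  The only primitive integer vectors on the sails are those of norm `±1`.  A pair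
consisting of a vector of norm `±1` and a vector of norm `∓5` can be chosen so that the leading
parts of the two errors cancel in the dominant coefficient, which two vectors of norm `±1` never
do.
-/

namespace Pool.Agent.Results.MP_b5c594_nt.OffTheSails

open Polynomial

/-! ### Definitions -/

/-- The determinant; it is nonzero iff `ℝ p` and `ℝ q` are two distinct lines. -/
def det2 (p q : Fin 2 → ℝ) : ℝ := p 0 * q 1 - p 1 * q 0

/-- The three coefficients (of `x²`, `x y`, `y²`) of the Markov–Davenport form of the arrangement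
of the lines `ℝ p` and `ℝ q`, that is, of
`(p₁ x - p₀ y) (q₁ x - q₀ y) / (p₁ (- q₀) - q₁ (- p₀))`. -/
noncomputable def coef (p q : Fin 2 → ℝ) : Fin 3 → ℝ :=
  ![p 1 * q 1 / det2 p q, -(p 1 * q 0 + p 0 * q 1) / det2 p q, p 0 * q 0 / det2 p q]

/-- The largest absolute value of the three coefficients. -/
def maxAbs (c : Fin 3 → ℝ) : ℝ := max |c 0| (max |c 1| |c 2|)

/-- The discrepancy of the arrangements `{ℝ p, ℝ q}` and `{ℝ r, ℝ s}`. -/
noncomputable def rho (p q r s : Fin 2 → ℝ) : ℝ :=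
  min (maxAbs (coef p q + coef r s)) (maxAbs (coef p q - coef r s))

/-- An integer vector as a real vector. -/
def toR (v : Fin 2 → ℤ) : Fin 2 → ℝ := fun i => (v i : ℝ)

/-- `v` and `w` are the primitive vectors of an integer arrangement. -/
def IntArr (v w : Fin 2 → ℤ) : Prop :=
  IsCoprime (v 0) (v 1) ∧ IsCoprime (w 0) (w 1) ∧ det2 (toR v) (toR w) ≠ 0

/-- The size of the integer arrangement with primitive vectors `v` and `w`. -/
def size (v w : Fin 2 → ℤ) : ℤ := max (max |v 0| |v 1|) (max |w 0| |w 1|)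

/-- `{ℝ v, ℝ w}` is a best approximation of size at most `N` of the arrangement `{ℝ p, ℝ q}`, and
`v`, `w` are its primitive vectors. -/
def IsBest (p q : Fin 2 → ℝ) (N : ℕ) (v w : Fin 2 → ℤ) : Prop :=
  IntArr v w ∧ size v w ≤ N ∧ ∀ v' w' : Fin 2 → ℤ, IntArr v' w' → size v' w' ≤ N →
    rho p q (toR v) (toR w) ≤ rho p q (toR v') (toR w')

/-- The arrangement `{ℝ p, ℝ q}` is algebraic. -/
def IsAlgebraicArr (p q : Fin 2 → ℝ) : Prop :=
  ∃ A : Matrix (Fin 2) (Fin 2) ℤ, IsUnit A.det ∧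
    Irreducible (A.charpoly.map (Int.castRingHom ℚ)) ∧
    ∃ lam mu : ℝ, (A.map (Int.cast : ℤ → ℝ)).mulVec p = lam • p ∧
      (A.map (Int.cast : ℤ → ℝ)).mulVec q = mu • q

/-- The closed angle spanned by `p` and `q`. -/
def angle (p q : Fin 2 → ℝ) : Set (Fin 2 → ℝ) :=
  {x | ∃ α β : ℝ, 0 ≤ α ∧ 0 ≤ β ∧ x = α • p + β • q}

/-- The (`1`-)sail of the closed angle `C`: the boundary of the convex hull of the nonzero integer
points of `C`. -/
def sail (C : Set (Fin 2 → ℝ)) : Set (Fin 2 → ℝ) :=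
  frontier (convexHull ℝ {x | x ∈ C ∧ x ≠ 0 ∧ ∃ v : Fin 2 → ℤ, x = toR v})

/-- The geometric continued fraction of the arrangement `{ℝ p, ℝ q}`: the union of the sails of
the four angles. -/
def gcf (p q : Fin 2 → ℝ) : Set (Fin 2 → ℝ) :=
  sail (angle p q) ∪ sail (angle (-p) q) ∪ sail (angle p (-q)) ∪ sail (angle (-p) (-q))

/-! ### The constants -/

noncomputable def s : ℝ := √5
noncomputable def ph : ℝ := (1 + s) / 2
noncomputable def ps : ℝ := (1 - s) / 2
noncomputable def a : ℝ := 1000 + ph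
noncomputable def b : ℝ := 1000 + ps

lemma s_sq : s * s = 5 := by unfold s; exact Real.mul_self_sqrt (by norm_num)

lemma s_pos : 0 < s := by unfold s; positivity

lemma s_lo : 2.236 < s := by
  have h1 := s_sq
  have h2 := s_pos
  nlinarith

lemma s_hi : s < 2.2361 := by
  have h1 := s_sq
  have h2 := s_pos
  nlinarith

lemma ph_lo : 1.618 < ph := by unfold ph; linarith [s_lo]
lemma ph_hi : ph < 1.61805 := by unfold ph; linarith [s_hi]
lemma ps_lo : -0.61805 < ps := by unfold ps; linarith [s_hi]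
lemma ps_hi : ps < -0.618 := by unfold ps; linarith [s_lo]

lemma ph_pos : 0 < ph := by linarith [ph_lo]

lemma ph_add : ph + ps = 1 := by unfold ph ps; ring

lemma ph_mul : ph * ps = -1 := by
  have := s_sq
  unfold ph ps
  linear_combination (-1 / 4 : ℝ) * this

lemma a_sub : a - b = s := by unfold a b ph ps; ring

lemma a_add : a + b = 2001 := by unfold a b; linear_combination ph_add

lemma a_mul : a * b = 1000999 := by
  unfold a b
  linear_combination 1000 * ph_add + ph_mul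

lemma a_lo : 1001.6 < a := by unfold a; linarith [ph_lo]
lemma a_hi : a < 1001.7 := by unfold a; linarith [ph_hi]
lemma b_lo : 999.3 < b := by unfold b; linarith [ps_lo]
lemma b_hi : b < 999.4 := by unfold b; linarith [ps_hi]

lemma a2_lo : 1003202 ≤ a ^ 2 := by
  have h := pow_le_pow_left₀ (by norm_num) a_lo.le 2
  norm_num at h ⊢; linarith
lemma a2_hi : a ^ 2 ≤ 1003403 := by
  have h := pow_le_pow_left₀ (by linarith [a_lo]) a_hi.le 2
  norm_num at h ⊢; linarith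
lemma b2_lo : 998600 ≤ b ^ 2 := by
  have h := pow_le_pow_left₀ (by norm_num) b_lo.le 2
  norm_num at h ⊢; linarith
lemma b2_hi : b ^ 2 ≤ 998801 := by
  have h := pow_le_pow_left₀ (by linarith [b_lo]) b_hi.le 2
  norm_num at h ⊢; linarith

lemma ps_eq : ps = -ph⁻¹ := by
  have h := ph_mul
  have h0 := ph_pos.ne'
  field_simp
  linarith

/-- the two linear functionals -/
noncomputable def eta (x : Fin 2 → ℝ) : ℝ := x 0 - b * x 1
noncomputable def xi (x : Fin 2 → ℝ) : ℝ := x 0 - a * x 1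

lemma eta_add (x y : Fin 2 → ℝ) : eta (x + y) = eta x + eta y := by
  unfold eta; simp only [Pi.add_apply]; ring
lemma eta_smul (c : ℝ) (x : Fin 2 → ℝ) : eta (c • x) = c * eta x := by
  unfold eta; simp only [Pi.smul_apply, smul_eq_mul]; ring
lemma xi_add (x y : Fin 2 → ℝ) : xi (x + y) = xi x + xi y := by
  unfold xi; simp only [Pi.add_apply]; ring
lemma xi_smul (c : ℝ) (x : Fin 2 → ℝ) : xi (c • x) = c * xi x := by
  unfold xi; simp only [Pi.smul_apply, smul_eq_mul]; ring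

lemma ext_eta_xi (x y : Fin 2 → ℝ) (h1 : eta x = eta y) (h2 : xi x = xi y) : x = y := by
  unfold eta at h1
  unfold xi at h2
  have hs := a_sub
  have hs0 := s_pos
  have e1 : x 1 = y 1 := by
    have : s * (x 1 - y 1) = 0 := by rw [← hs]; linear_combination h1 - h2
    rcases mul_eq_zero.1 this with h | h
    · exact absurd h hs0.ne'
    · linarith
  have e0 : x 0 = y 0 := by rw [e1] at h1; linarith
  funext i
  fin_cases i
  · exact e0
  · exact e1

lemma continuous_eta : Continuous eta := by unfold eta; fun_prop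
lemma continuous_xi : Continuous xi := by unfold xi; fun_prop

/-- the norm of an integer vector -/
def nrm (v : Fin 2 → ℤ) : ℤ := v 0 ^ 2 - 2001 * v 0 * v 1 + 1000999 * v 1 ^ 2

lemma nrm_eq (v : Fin 2 → ℤ) : eta (toR v) * xi (toR v) = nrm v := by
  unfold eta xi nrm toR
  push_cast
  linear_combination (-(v 0 : ℝ) * v 1) * a_add + (v 1 : ℝ) ^ 2 * a_mul

/-! ### Units -/

lemma units (i : ℤ) : ∃ v : Fin 2 → ℤ, eta (toR v) = ph ^ i ∧ xi (toR v) = ps ^ i := by
  have hph : ph ≠ 0 := ph_pos.ne'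
  have hps : ps ≠ 0 := by linarith [ps_hi] |> fun (h : ps < 0) => h.ne
  induction i using Int.induction_on with
  | zero => exact ⟨![1, 0], by simp [eta, toR], by simp [xi, toR]⟩
  | succ i ih =>
    obtain ⟨v, h1, h2⟩ := ih
    refine ⟨![1001 * v 0 - 1000999 * v 1, v 0 - 1000 * v 1], ?_, ?_⟩
    · rw [zpow_add_one₀ hph, ← h1]
      simp only [eta, toR, Matrix.cons_val_zero, Matrix.cons_val_one]
      push_cast
      have e1 : b = 1001 - ph := by unfold b; linarith [ph_add]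
      have e2 : ph * ph = ph + 1 := by
        have h3 := ph_mul
        have h4 : ps = 1 - ph := by linarith [ph_add]
        rw [h4] at h3; linarith
      rw [e1]
      linear_combination (-(v 1 : ℝ)) * e2
    · rw [zpow_add_one₀ hps, ← h2]
      simp only [xi, toR, Matrix.cons_val_zero, Matrix.cons_val_one]
      push_cast
      have e1 : a = 1001 - ps := by unfold a; linarith [ph_add]
      have e2 : ps * ps = ps + 1 := by
        have h3 := ph_mul
        have h4 : ph = 1 - ps := by linarith [ph_add]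
        rw [h4] at h3; linarith
      rw [e1]
      linear_combination (-(v 1 : ℝ)) * e2
  | pred i ih =>
    obtain ⟨v, h1, h2⟩ := ih
    refine ⟨![1000 * v 0 - 1000999 * v 1, v 0 - 1001 * v 1], ?_, ?_⟩
    · rw [zpow_sub_one₀ hph, ← h1, ← div_eq_mul_inv, eq_div_iff hph]
      simp only [eta, toR, Matrix.cons_val_zero, Matrix.cons_val_one]
      push_cast
      have e1 : b = 1001 - ph := by unfold b; linarith [ph_add]
      have e2 : ph * ph = ph + 1 := by
        have h3 := ph_mul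
        have h4 : ps = 1 - ph := by linarith [ph_add]
        rw [h4] at h3; linarith
      rw [e1]
      linear_combination ((v 0 : ℝ) - 1001 * v 1) * e2
    · rw [zpow_sub_one₀ hps, ← h2, ← div_eq_mul_inv, eq_div_iff hps]
      simp only [xi, toR, Matrix.cons_val_zero, Matrix.cons_val_one]
      push_cast
      have e1 : a = 1001 - ps := by unfold a; linarith [ph_add]
      have e2 : ps * ps = ps + 1 := by
        have h3 := ph_mul
        have h4 : ph = 1 - ps := by linarith [ph_add]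
        rw [h4] at h3; linarith
      rw [e1]
      linear_combination ((v 0 : ℝ) - 1001 * v 1) * e2

lemma units_signed (σ τ : ℝ) (hσ : σ = 1 ∨ σ = -1) (hτ : τ = 1 ∨ τ = -1) :
    ∃ c : ℤ, (c = 0 ∨ c = 1) ∧ ∀ i : ℤ, ∃ g : Fin 2 → ℤ,
      σ * eta (toR g) = ph ^ (2 * i + c) ∧ τ * xi (toR g) = ph ^ (-(2 * i + c)) := by
  have neg_toR : ∀ v : Fin 2 → ℤ, toR (-v) = -toR v := by
    intro v; funext i; simp [toR]
  have neg_eta : ∀ x : Fin 2 → ℝ, eta (-x) = -eta x := by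
    intro x; unfold eta; simp only [Pi.neg_apply]; ring
  have neg_xi : ∀ x : Fin 2 → ℝ, xi (-x) = -xi x := by
    intro x; unfold xi; simp only [Pi.neg_apply]; ring
  have hev : ∀ i : ℤ, ps ^ (2 * i + 0) = ph ^ (-(2 * i + 0)) := by
    intro i
    have he : Even (2 * i + 0) := ⟨i, by ring⟩
    rw [ps_eq, he.neg_zpow, inv_zpow, zpow_neg]
  have hod : ∀ i : ℤ, ps ^ (2 * i + 1) = -ph ^ (-(2 * i + 1)) := by
    intro i
    have he : Odd (2 * i + 1) := ⟨i, by ring⟩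
    rw [ps_eq, he.neg_zpow, inv_zpow, zpow_neg]
  rcases hσ with rfl | rfl <;> rcases hτ with rfl | rfl
  · refine ⟨0, Or.inl rfl, fun i => ?_⟩
    obtain ⟨v, h1, h2⟩ := units (2 * i + 0)
    exact ⟨v, by rw [h1]; ring, by rw [h2, hev]; ring⟩
  · refine ⟨1, Or.inr rfl, fun i => ?_⟩
    obtain ⟨v, h1, h2⟩ := units (2 * i + 1)
    exact ⟨v, by rw [h1]; ring, by rw [h2, hod]; ring⟩
  · refine ⟨1, Or.inr rfl, fun i => ?_⟩
    obtain ⟨v, h1, h2⟩ := units (2 * i + 1)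
    exact ⟨-v, by rw [neg_toR, neg_eta, h1]; ring, by rw [neg_toR, neg_xi, h2, hod]; ring⟩
  · refine ⟨0, Or.inl rfl, fun i => ?_⟩
    obtain ⟨v, h1, h2⟩ := units (2 * i + 0)
    exact ⟨-v, by rw [neg_toR, neg_eta, h1]; ring, by rw [neg_toR, neg_xi, h2, hev]; ring⟩

/-! ### Points of the sails -/

/-- the nonzero integer points of an angle -/
def pts (σ τ : ℝ) : Set (Fin 2 → ℝ) :=
  {x | (0 ≤ σ * eta x ∧ 0 ≤ τ * xi x) ∧ x ≠ 0 ∧ ∃ v : Fin 2 → ℤ, x = toR v}

lemma three_mem {S : Set (Fin 2 → ℝ)} (hS : Convex ℝ S) {x y z : Fin 2 → ℝ} (hx : x ∈ S)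
    (hy : y ∈ S) (hz : z ∈ S) {α β γ : ℝ} (hα : 0 ≤ α) (hβ : 0 ≤ β) (hγ : 0 ≤ γ)
    (h1 : α + β + γ = 1) : α • x + β • y + γ • z ∈ S := by
  rcases eq_or_lt_of_le (add_nonneg hβ hγ) with h | h
  · have hβ0 : β = 0 := by linarith
    have hγ0 : γ = 0 := by linarith
    have hα1 : α = 1 := by linarith
    rw [hβ0, hγ0, hα1]
    simpa using hx
  · have hm : (β / (β + γ)) • y + (γ / (β + γ)) • z ∈ S :=
      hS hy hz (by positivity) (by positivity) (by rw [← add_div, div_self h.ne'])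
    have := hS hx hm hα (add_nonneg hβ hγ) (by linarith)
    convert this using 1
    rw [smul_add, smul_smul, smul_smul, mul_div_cancel₀ _ h.ne', mul_div_cancel₀ _ h.ne',
      add_assoc]

lemma interior_mem (σ τ : ℝ) (hσ : σ = 1 ∨ σ = -1) (hτ : τ = 1 ∨ τ = -1) (V : Fin 2 → ℤ)
    (h1 : 0 < σ * eta (toR V)) (h2 : 0 < τ * xi (toR V))
    (h3 : 4 ≤ (σ * eta (toR V)) * (τ * xi (toR V))) :
    toR V ∈ interior (convexHull ℝ (pts σ τ)) := by
  obtain ⟨c, hc, hg⟩ := units_signed σ τ hσ hτ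
  have hph := ph_pos
  have hph0 := ph_pos.ne'
  have hph1 : 1 < ph := by linarith [ph_lo]
  -- the point `u`
  obtain ⟨i, hi1, hi2⟩ := exists_mem_Ioc_zpow (x := σ * eta (toR V) / ph ^ c) (y := ph ^ 2)
    (by positivity) (by nlinarith)
  have hpc : 0 < ph ^ c := by positivity
  rw [lt_div_iff₀ hpc] at hi1
  rw [div_le_iff₀ hpc] at hi2
  obtain ⟨u, hu1, hu2⟩ := hg i
  have e1 : (ph ^ 2) ^ i * ph ^ c = ph ^ (2 * i + c) := by
    rw [zpow_add₀ hph0, zpow_mul]; norm_cast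
  have e2 : (ph ^ 2) ^ (i + 1) * ph ^ c = ph ^ (2 * i + c) * ph ^ 2 := by
    rw [zpow_add₀ (by positivity), ← e1, zpow_one]; ring
  rw [e1] at hi1
  rw [e2] at hi2
  have hP : 0 < ph ^ (2 * i + c) := by positivity
  have hQ : ph ^ (-(2 * i + c)) * ph ^ (2 * i + c) = 1 := by
    rw [zpow_neg, inv_mul_cancel₀ hP.ne']
  have hQ0 : 0 < ph ^ (-(2 * i + c)) := by positivity
  have hu1' : σ * eta (toR u) < σ * eta (toR V) := by rw [hu1]; exact hi1
  have hu2' : τ * xi (toR u) < τ * xi (toR V) := by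
    rw [hu2]
    by_contra hcon
    push Not at hcon
    have hph2 : ph ^ 2 < 4 := by nlinarith [ph_hi]
    have : (σ * eta (toR V)) * (τ * xi (toR V)) ≤
        (ph ^ (2 * i + c) * ph ^ 2) * ph ^ (-(2 * i + c)) :=
      mul_le_mul hi2 hcon h2.le (by positivity)
    have e3 : (ph ^ (2 * i + c) * ph ^ 2) * ph ^ (-(2 * i + c)) = ph ^ 2 := by
      linear_combination ph ^ 2 * hQ
    rw [e3] at this
    linarith
  -- the open set
  have hopen : IsOpen {z : Fin 2 → ℝ | σ * eta (toR u) < σ * eta z ∧ τ * xi (toR u) < τ * xi z} :=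
    (isOpen_lt continuous_const (continuous_const.mul continuous_eta)).inter
      (isOpen_lt continuous_const (continuous_const.mul continuous_xi))
  refine mem_interior.2 ⟨_, ?_, hopen, ⟨hu1', hu2'⟩⟩
  rintro z ⟨hz1, hz2⟩
  obtain ⟨γ, hγ⟩ : ∃ γ, γ = σ * eta z - σ * eta (toR u) := ⟨_, rfl⟩
  obtain ⟨δ, hδ⟩ : ∃ δ, δ = τ * xi z - τ * xi (toR u) := ⟨_, rfl⟩
  have hγ0 : 0 < γ := by rw [hγ]; linarith
  have hδ0 : 0 < δ := by rw [hδ]; linarith
  obtain ⟨k, hk⟩ := pow_unbounded_of_one_lt (max (γ / δ) (δ / γ) + 1) hph1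
  obtain ⟨g₁, hg₁, hg₁'⟩ := hg (k + 1)
  obtain ⟨g₂, hg₂, hg₂'⟩ := hg (-(k + 1) - c)
  have ex : 2 * (-((k : ℤ) + 1) - c) + c = -(2 * ((k : ℤ) + 1) + c) := by ring
  rw [ex] at hg₂ hg₂'
  rw [neg_neg] at hg₂'
  obtain ⟨P, hPdef⟩ : ∃ P, P = ph ^ (2 * ((k : ℤ) + 1) + c) := ⟨_, rfl⟩
  obtain ⟨Q, hQdef⟩ : ∃ Q, Q = ph ^ (-(2 * ((k : ℤ) + 1) + c)) := ⟨_, rfl⟩
  rw [← hPdef] at hg₁ hg₂'
  rw [← hQdef] at hg₁' hg₂
  have hPQ : P * Q = 1 := by
    rw [hPdef, hQdef, ← zpow_add₀ hph0]; simp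
  have hPk : ph ^ k ≤ P := by
    rw [hPdef, ← zpow_natCast]
    apply zpow_le_zpow_right₀ hph1.le
    rcases hc with rfl | rfl <;> omega
  have hP1 : max (γ / δ) (δ / γ) + 1 < P := lt_of_lt_of_le hk hPk
  have hP2 : γ / δ < P := by linarith [le_max_left (γ / δ) (δ / γ)]
  have hP3 : δ / γ < P := by linarith [le_max_right (γ / δ) (δ / γ)]
  have hP4 : 1 < P := by
    have : 0 ≤ max (γ / δ) (δ / γ) := le_trans (by positivity) (le_max_left (γ / δ) (δ / γ))
    linarith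
  have hQ4 : 0 < Q := by rw [hQdef]; positivity
  have hQ5 : Q < 1 := by nlinarith
  rw [div_lt_iff₀ hδ0] at hP2
  rw [div_lt_iff₀ hγ0] at hP3
  have hD : 0 < P ^ 2 - Q ^ 2 := by nlinarith
  obtain ⟨lam, hlam⟩ : ∃ lam, lam = (γ * P - δ * Q) / (P ^ 2 - Q ^ 2) := ⟨_, rfl⟩
  obtain ⟨mu, hmu⟩ : ∃ mu, mu = (δ * P - γ * Q) / (P ^ 2 - Q ^ 2) := ⟨_, rfl⟩
  have hlam0 : 0 ≤ lam := by
    rw [hlam]
    apply div_nonneg _ hD.le
    nlinarith [mul_pos hγ0 hQ4]
  have hmu0 : 0 ≤ mu := by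
    rw [hmu]
    apply div_nonneg _ hD.le
    nlinarith [mul_pos hδ0 hQ4]
  have hl1 : lam * P + mu * Q = γ := by
    rw [hlam, hmu]; field_simp; linear_combination (-δ + δ) * hPQ
  have hl2 : lam * Q + mu * P = δ := by
    rw [hlam, hmu]; field_simp; linear_combination (-γ + γ) * hPQ
  have hσσ : σ * σ = 1 := by rcases hσ with rfl | rfl <;> norm_num
  have hττ : τ * τ = 1 := by rcases hτ with rfl | rfl <;> norm_num
  have hzu : z = toR u + lam • toR g₁ + mu • toR g₂ := by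
    apply ext_eta_xi
    · rw [eta_add, eta_add, eta_smul, eta_smul]
      have h5 : σ * eta z = σ * eta (toR u) + lam * (σ * eta (toR g₁)) +
          mu * (σ * eta (toR g₂)) := by rw [hg₁, hg₂, add_assoc, hl1, hγ]; ring
      linear_combination σ * h5 + (-eta z + eta (toR u) + lam * eta (toR g₁) +
        mu * eta (toR g₂)) * hσσ
    · rw [xi_add, xi_add, xi_smul, xi_smul]
      have h5 : τ * xi z = τ * xi (toR u) + lam * (τ * xi (toR g₁)) +
          mu * (τ * xi (toR g₂)) := by rw [hg₁', hg₂', add_assoc, hl2, hδ]; ring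
      linear_combination τ * h5 + (-xi z + xi (toR u) + lam * xi (toR g₁) +
        mu * xi (toR g₂)) * hττ
  obtain ⟨n, hn⟩ := exists_nat_gt (lam + mu)
  have hn0 : (0 : ℝ) < n := by linarith
  have mem_pts : ∀ v : Fin 2 → ℤ, 0 < σ * eta (toR v) → 0 ≤ τ * xi (toR v) → toR v ∈ pts σ τ := by
    intro v hv1 hv2
    refine ⟨⟨hv1.le, hv2⟩, ?_, v, rfl⟩
    intro h0
    rw [h0] at hv1
    simp [eta] at hv1
  have hu0 : 0 < σ * eta (toR u) := by rw [hu1]; exact hP
  have hu0' : 0 < τ * xi (toR u) := by rw [hu2]; exact hQ0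
  have add_toR : ∀ v : Fin 2 → ℤ, toR (u + n • v) = toR u + (n : ℝ) • toR v := by
    intro v; funext i; simp [toR]
  have m0 : toR u ∈ convexHull ℝ (pts σ τ) := subset_convexHull ℝ _ (mem_pts u hu0 hu0'.le)
  have m1 : toR u + (n : ℝ) • toR g₁ ∈ convexHull ℝ (pts σ τ) := by
    rw [← add_toR]
    apply subset_convexHull ℝ _ (mem_pts _ _ _)
    · rw [add_toR, eta_add, eta_smul]
      have : σ * (eta (toR u) + n * eta (toR g₁)) = σ * eta (toR u) + n * P := by
        rw [← hg₁]; ring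
      rw [this]; positivity
    · rw [add_toR, xi_add, xi_smul]
      have : τ * (xi (toR u) + n * xi (toR g₁)) = τ * xi (toR u) + n * Q := by
        rw [← hg₁']; ring
      rw [this]; positivity
  have m2 : toR u + (n : ℝ) • toR g₂ ∈ convexHull ℝ (pts σ τ) := by
    rw [← add_toR]
    apply subset_convexHull ℝ _ (mem_pts _ _ _)
    · rw [add_toR, eta_add, eta_smul]
      have : σ * (eta (toR u) + n * eta (toR g₂)) = σ * eta (toR u) + n * Q := by
        rw [← hg₂]; ring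
      rw [this]; positivity
    · rw [add_toR, xi_add, xi_smul]
      have : τ * (xi (toR u) + n * xi (toR g₂)) = τ * xi (toR u) + n * P := by
        rw [← hg₂']; ring
      rw [this]; positivity
  have hfin := three_mem (convex_convexHull ℝ (pts σ τ)) m0 m1 m2
    (α := 1 - (lam + mu) / n) (β := lam / n) (γ := mu / n)
    (by rw [sub_nonneg, div_le_one hn0]; exact hn.le) (by positivity) (by positivity) (by ring)
  convert hfin using 1
  rw [hzu]
  funext i
  simp only [Pi.add_apply, Pi.smul_apply, smul_eq_mul]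
  field_simp
  ring

lemma closure_sub (σ τ : ℝ) : closure (convexHull ℝ (pts σ τ)) ⊆
    {x | 0 ≤ σ * eta x ∧ 0 ≤ τ * xi x} := by
  have hclosed : IsClosed {x : Fin 2 → ℝ | 0 ≤ σ * eta x ∧ 0 ≤ τ * xi x} :=
    (isClosed_le continuous_const (continuous_const.mul continuous_eta)).inter
      (isClosed_le continuous_const (continuous_const.mul continuous_xi))
  apply closure_minimal _ hclosed
  apply convexHull_min
  · rintro x ⟨h, -⟩
    exact h
  · intro x hx y hy α β hα hβ _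
    refine ⟨?_, ?_⟩
    · rw [eta_add, eta_smul, eta_smul]
      have : σ * (α * eta x + β * eta y) = α * (σ * eta x) + β * (σ * eta y) := by ring
      rw [this]
      exact add_nonneg (mul_nonneg hα hx.1) (mul_nonneg hβ hy.1)
    · rw [xi_add, xi_smul, xi_smul]
      have : τ * (α * xi x + β * xi y) = α * (τ * xi x) + β * (τ * xi y) := by ring
      rw [this]
      exact add_nonneg (mul_nonneg hα hx.2) (mul_nonneg hβ hy.2)

lemma frontier_norm (σ τ : ℝ) (hσ : σ = 1 ∨ σ = -1) (hτ : τ = 1 ∨ τ = -1) (V : Fin 2 → ℤ)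
    (h : toR V ∈ frontier (convexHull ℝ (pts σ τ))) : |nrm V| < 4 := by
  by_contra hcon
  push Not at hcon
  obtain ⟨h1, h2⟩ := closure_sub σ τ h.1
  apply h.2
  have hσσ : σ * σ = 1 := by rcases hσ with rfl | rfl <;> norm_num
  have hττ : τ * τ = 1 := by rcases hτ with rfl | rfl <;> norm_num
  have hn := nrm_eq V
  have habs : (4 : ℝ) ≤ |(nrm V : ℝ)| := by exact_mod_cast hcon
  have hprod : (σ * eta (toR V)) * (τ * xi (toR V)) = |(nrm V : ℝ)| := by
    have h3 : 0 ≤ (σ * eta (toR V)) * (τ * xi (toR V)) := mul_nonneg h1 h2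
    rw [← abs_of_nonneg h3, ← hn]
    have : (σ * eta (toR V)) * (τ * xi (toR V)) = (σ * τ) * (eta (toR V) * xi (toR V)) := by ring
    rw [this, abs_mul]
    have h4 : |σ * τ| = 1 := by rcases hσ with rfl | rfl <;> rcases hτ with rfl | rfl <;> simp
    rw [h4, one_mul]
  have hpos : 0 < (σ * eta (toR V)) * (τ * xi (toR V)) := by rw [hprod]; linarith
  refine interior_mem σ τ hσ hτ V ?_ ?_ (by rw [hprod]; exact habs)
  · rcases eq_or_lt_of_le h1 with h0 | h0
    · rw [← h0] at hpos; simp at hpos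
    · exact h0
  · rcases eq_or_lt_of_le h2 with h0 | h0
    · rw [← h0] at hpos; simp at hpos
    · exact h0

/-! ### The arrangement -/

noncomputable def pp : Fin 2 → ℝ := ![a, 1]
noncomputable def qq : Fin 2 → ℝ := ![b, 1]

lemma det_pq : det2 pp qq = s := by
  simp only [det2, pp, qq, Matrix.cons_val_zero, Matrix.cons_val_one]
  linear_combination a_sub

lemma angle_eq (σ τ : ℝ) (hσ : σ = 1 ∨ σ = -1) (hτ : τ = 1 ∨ τ = -1) :
    angle (σ • pp) (τ • qq) = {x | 0 ≤ σ * eta x ∧ 0 ≤ (-τ) * xi x} := by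
  have hσσ : σ * σ = 1 := by rcases hσ with rfl | rfl <;> norm_num
  have hττ : τ * τ = 1 := by rcases hτ with rfl | rfl <;> norm_num
  have hs := s_pos
  have e1 : eta pp = s := by simp [eta, pp, ← a_sub]
  have e2 : eta qq = 0 := by simp [eta, qq]
  have e3 : xi pp = 0 := by simp [xi, pp]
  have e4 : xi qq = -s := by simp [xi, qq, ← a_sub]
  ext x
  constructor
  · rintro ⟨α, β, hα, hβ, rfl⟩
    constructor
    · rw [eta_add, eta_smul, eta_smul, eta_smul, eta_smul, e1, e2]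
      have : σ * (α * (σ * s) + β * (τ * 0)) = (σ * σ) * (α * s) := by ring
      rw [this, hσσ]; positivity
    · rw [xi_add, xi_smul, xi_smul, xi_smul, xi_smul, e3, e4]
      have : -τ * (α * (σ * 0) + β * (τ * -s)) = (τ * τ) * (β * s) := by ring
      rw [this, hττ]; positivity
  · rintro ⟨h1, h2⟩
    refine ⟨σ * eta x / s, -τ * xi x / s, div_nonneg h1 hs.le, div_nonneg h2 hs.le, ?_⟩
    apply ext_eta_xi
    · rw [eta_add, eta_smul, eta_smul, eta_smul, eta_smul, e1, e2]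
      field_simp
      linear_combination (-eta x * s) * hσσ
    · rw [xi_add, xi_smul, xi_smul, xi_smul, xi_smul, e3, e4]
      field_simp
      linear_combination (-xi x * s) * hττ

lemma sail_norm (σ τ : ℝ) (hσ : σ = 1 ∨ σ = -1) (hτ : τ = 1 ∨ τ = -1) (V : Fin 2 → ℤ)
    (h : toR V ∈ sail (angle (σ • pp) (τ • qq))) : |nrm V| < 4 := by
  have hτ' : -τ = 1 ∨ -τ = -1 := by rcases hτ with rfl | rfl <;> norm_num
  apply frontier_norm σ (-τ) hσ hτ' V
  unfold sail at h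
  rw [angle_eq σ τ hσ hτ] at h
  exact h

lemma gcf_norm (V : Fin 2 → ℤ) (h : toR V ∈ gcf pp qq) : |nrm V| < 4 := by
  have e1 : (1 : ℝ) • pp = pp := one_smul _ _
  have e2 : (1 : ℝ) • qq = qq := one_smul _ _
  have e3 : (-1 : ℝ) • pp = -pp := neg_one_smul _ _
  have e4 : (-1 : ℝ) • qq = -qq := neg_one_smul _ _
  have o : (1 : ℝ) = 1 ∨ (1 : ℝ) = -1 := Or.inl rfl
  have m : (-1 : ℝ) = 1 ∨ (-1 : ℝ) = -1 := Or.inr rfl
  rcases h with ((h | h) | h) | h
  · exact sail_norm 1 1 o o V (by rwa [e1, e2])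
  · exact sail_norm (-1) 1 m o V (by rwa [e3, e2])
  · exact sail_norm 1 (-1) o m V (by rwa [e1, e4])
  · exact sail_norm (-1) (-1) m m V (by rwa [e3, e4])

lemma key2 : ∀ x y : ZMod 2, x ^ 2 - 2001 * x * y + 1000999 * y ^ 2 = 0 → x = 0 ∧ y = 0 := by
  decide
lemma key3 : ∀ x y : ZMod 3, x ^ 2 - 2001 * x * y + 1000999 * y ^ 2 = 0 → x = 0 ∧ y = 0 := by
  decide

lemma not_dvd (p : ℕ) (hp : 1 < p) (key : ∀ x y : ZMod p,
    x ^ 2 - 2001 * x * y + 1000999 * y ^ 2 = 0 → x = 0 ∧ y = 0) (V : Fin 2 → ℤ)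
    (hV : IsCoprime (V 0) (V 1)) : ¬ (p : ℤ) ∣ nrm V := by
  intro h
  rw [← ZMod.intCast_zmod_eq_zero_iff_dvd] at h
  unfold nrm at h
  push_cast at h
  obtain ⟨h1, h2⟩ := key _ _ h
  rw [ZMod.intCast_zmod_eq_zero_iff_dvd] at h1 h2
  have := hV.isUnit_of_dvd' h1 h2
  rw [Int.isUnit_iff] at this
  omega

lemma norm_one (V : Fin 2 → ℤ) (hV : IsCoprime (V 0) (V 1)) (h : toR V ∈ gcf pp qq) :
    nrm V = 1 ∨ nrm V = -1 := by
  have h1 := gcf_norm V h
  rw [abs_lt] at h1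
  have h2 := not_dvd 2 (by norm_num) key2 V hV
  have h3 := not_dvd 3 (by norm_num) key3 V hV
  push_cast at h2 h3
  omega

/-! ### The error of a pair -/

/-- the coefficients of the form of the arrangement -/
lemma coef_pq : coef pp qq = ![1 / s, -2001 / s, 1000999 / s] := by
  unfold coef
  rw [det_pq]
  simp only [pp, qq, Matrix.cons_val_zero, Matrix.cons_val_one]
  congr 1
  · norm_num
  · congr 1
    · congr 1; linear_combination -a_add
    · congr 1
      congr 1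
      exact a_mul

/-- the identities for the errors; `d = det (v, w)` -/
lemma err (x₁ y₁ x₂ y₂ d : ℝ) (hd : d = x₁ * y₂ - y₁ * x₂) (hd0 : d ≠ 0) :
    5 * d * (y₁ * y₂ / d - 1 / s) =
      (x₁ - b * y₁) * (x₂ - b * y₂) + (x₁ - a * y₁) * (x₂ - a * y₂) -
        2 * ((x₁ - a * y₁) * (x₂ - b * y₂)) ∧
    5 * d * (-(y₁ * x₂ + x₁ * y₂) / d - -2001 / s) =
      -(2 * a * ((x₁ - b * y₁) * (x₂ - b * y₂)) + 2 * b * ((x₁ - a * y₁) * (x₂ - a * y₂)) -
        2 * (a + b) * ((x₁ - a * y₁) * (x₂ - b * y₂))) ∧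
    5 * d * (x₁ * x₂ / d - 1000999 / s) =
      a ^ 2 * ((x₁ - b * y₁) * (x₂ - b * y₂)) + b ^ 2 * ((x₁ - a * y₁) * (x₂ - a * y₂)) -
        2 * (a * b) * ((x₁ - a * y₁) * (x₂ - b * y₂)) := by
  have hs := s_sq
  have hs0 : s ≠ 0 := s_pos.ne'
  have h5 : (5 : ℝ) / s = s := by rw [div_eq_iff hs0]; exact hs.symm
  have g1 : 5 * d * (y₁ * y₂ / d - 1 / s) = 5 * (y₁ * y₂) - d * s := by
    rw [mul_sub, show 5 * d * (y₁ * y₂ / d) = 5 * (y₁ * y₂) * (d / d) by ring, div_self hd0,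
      show 5 * d * (1 / s) = d * (5 / s) by ring, h5]; ring
  have g2 : 5 * d * (-(y₁ * x₂ + x₁ * y₂) / d - -2001 / s) =
      -5 * (y₁ * x₂ + x₁ * y₂) + 2001 * d * s := by
    rw [mul_sub, show 5 * d * (-(y₁ * x₂ + x₁ * y₂) / d) =
      -5 * (y₁ * x₂ + x₁ * y₂) * (d / d) by ring, div_self hd0,
      show 5 * d * (-2001 / s) = -2001 * d * (5 / s) by ring, h5]; ring
  have g3 : 5 * d * (x₁ * x₂ / d - 1000999 / s) = 5 * (x₁ * x₂) - 1000999 * d * s := by
    rw [mul_sub, show 5 * d * (x₁ * x₂ / d) = 5 * (x₁ * x₂) * (d / d) by ring, div_self hd0,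
      show 5 * d * (1000999 / s) = 1000999 * d * (5 / s) by ring, h5]; ring
  have ea : a = b + s := by linarith [a_sub]
  refine ⟨?_, ?_, ?_⟩
  · rw [g1, hd, ea]
    linear_combination (-(y₁ * y₂)) * hs
  · rw [g2, hd, ← a_add, ea]
    linear_combination (y₁ * x₂ + x₁ * y₂) * hs
  · rw [g3, hd, ← a_mul, ea]
    linear_combination (-(x₁ * x₂)) * hs

lemma abs_le_mul {x y A B : ℝ} (hx : |x| ≤ A) (hy : |y| ≤ B) : |x * y| ≤ A * B := by
  rw [abs_mul]
  exact mul_le_mul hx hy (abs_nonneg _) (le_trans (abs_nonneg _) hx)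

/-- the quadratic lower bound -/
lemma quad_lower (U V : ℝ) (hUV : U * V = 1 ∨ U * V = -1) (T S : ℤ) (hT : U + V = T)
    (hS : U - V = s * S) : 990000 ≤ |a ^ 2 * U + b ^ 2 * V| := by
  have ha1 := a_lo
  have ha2 := a_hi
  have hb1 := b_lo
  have hb2 := b_hi
  have hab := a_mul
  have hb3 := b2_lo
  have hb4 := b2_hi
  have ha3 := a2_hi
  have ha4 := a2_lo
  have key : (990000 : ℝ) ^ 2 ≤ (a ^ 2 * U + b ^ 2 * V) ^ 2 := by
    rcases hUV with h | h
    · have e : (a ^ 2 * U + b ^ 2 * V) ^ 2 =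
          (a ^ 2 * U - b ^ 2 * V) ^ 2 + 4 * (a * b) ^ 2 * (U * V) := by ring
      rw [e, h, hab]
      have := sq_nonneg (a ^ 2 * U - b ^ 2 * V)
      norm_num
      linarith
    · have hT0 : T ≠ 0 := by
        rintro rfl
        have h1 : V = -U := by push_cast at hT; linarith
        rw [h1] at h hS
        have h2 : U * U = 1 := by linarith
        have h3 : (5 : ℝ) * (S : ℝ) ^ 2 = 4 := by
          have h4 : (s * S) * (s * S) = 4 := by rw [← hS]; linear_combination 4 * h2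
          linear_combination h4 - (S : ℝ) ^ 2 * s_sq
        have h5 : (5 : ℤ) * S ^ 2 = 4 := by exact_mod_cast h3
        omega
      have hT1 : (1 : ℝ) ≤ (T : ℝ) ^ 2 := by
        have : 1 ≤ T ^ 2 := by
          have := sq_pos_of_ne_zero hT0
          omega
        exact_mod_cast this
      rw [← hT] at hT1
      have h3 : 3 ≤ U ^ 2 + V ^ 2 := by
        have : U ^ 2 + V ^ 2 = (U + V) ^ 2 - 2 * (U * V) := by ring
        rw [this, h]; linarith
      have e : (a ^ 2 * U + b ^ 2 * V) ^ 2 = (a ^ 2) ^ 2 * U ^ 2 + (b ^ 2) ^ 2 * V ^ 2 +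
          2 * (a ^ 2 * b ^ 2) * (U * V) := by ring
      have h4 : (b ^ 2) ^ 2 ≤ (a ^ 2) ^ 2 := by
        have h9 : b ^ 2 ≤ a ^ 2 := by linarith
        exact pow_le_pow_left₀ (sq_nonneg b) h9 2
      have h5 : (b ^ 2) ^ 2 * U ^ 2 ≤ (a ^ 2) ^ 2 * U ^ 2 :=
        mul_le_mul_of_nonneg_right h4 (sq_nonneg U)
      have h6 : (b ^ 2) ^ 2 * 3 ≤ (b ^ 2) ^ 2 * (U ^ 2 + V ^ 2) :=
        mul_le_mul_of_nonneg_left h3 (by positivity)
      have h7 : a ^ 2 * b ^ 2 = 1000999 ^ 2 := by rw [← hab]; ring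
      rw [e, h, h7]
      have h8 : (998600 : ℝ) ^ 2 ≤ (b ^ 2) ^ 2 := pow_le_pow_left₀ (by norm_num) hb3 2
      norm_num at h8 ⊢
      linarith
  have := Real.sqrt_le_sqrt key
  rw [Real.sqrt_sq (by norm_num), Real.sqrt_sq_eq_abs] at this
  exact this

/-- the bound for one of the products -/
lemma comb (x U V W k : ℝ) (hx : 0 < x) (X : ℝ)
    (hX : X = x ^ 2 * (U + V - 2 * W) + x * (-(2 * a * U + 2 * b * V - 2 * (a + b) * W)) +
      (a ^ 2 * U + b ^ 2 * V - 2 * (a * b) * W))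
    (b0 : |U + V - 2 * W| ≤ k)
    (b1 : |-(2 * a * U + 2 * b * V - 2 * (a + b) * W)| ≤ k)
    (b2 : |a ^ 2 * U + b ^ 2 * V - 2 * (a * b) * W| ≤ k) : |X| ≤ (x ^ 2 + x + 1) * k := by
  rw [hX]
  obtain ⟨P, hP⟩ : ∃ P, P = U + V - 2 * W := ⟨_, rfl⟩
  obtain ⟨Q, hQ⟩ : ∃ Q, Q = -(2 * a * U + 2 * b * V - 2 * (a + b) * W) := ⟨_, rfl⟩
  obtain ⟨R, hR⟩ : ∃ R, R = a ^ 2 * U + b ^ 2 * V - 2 * (a * b) * W := ⟨_, rfl⟩
  rw [← hP] at b0 ⊢
  rw [← hQ] at b1 ⊢
  rw [← hR] at b2 ⊢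
  have e1 : |x ^ 2 * P| ≤ x ^ 2 * k := by
    rw [abs_mul, abs_of_pos (by positivity)]
    exact mul_le_mul_of_nonneg_left b0 (by positivity)
  have e2 : |x * Q| ≤ x * k := by
    rw [abs_mul, abs_of_pos hx]
    exact mul_le_mul_of_nonneg_left b1 hx.le
  have e3 := abs_add_le (x ^ 2 * P + x * Q) R
  have e4 := abs_add_le (x ^ 2 * P) (x * Q)
  linarith

lemma lower_real (U V W Z d r N x₁ x₂ : ℝ) (hd : d ≠ 0) (hr1 : r ≤ 1 / 10 ^ 10)
    (hr : 0 ≤ r) (hWZ1 : |W| * |Z| = 1) (hsd : s * d = W - Z)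
    (hq : 990000 ≤ |a ^ 2 * U + b ^ 2 * V|)
    (hv0 : |x₁| ≤ N) (hw0 : |x₂| ≤ N) (h2 : |x₁ * x₂ / d - 1000999 / s| ≤ r)
    (b0 : |U + V - 2 * W| ≤ 5 * |d| * r)
    (b1 : |-(2 * a * U + 2 * b * V - 2 * (a + b) * W)| ≤ 5 * |d| * r)
    (b2 : |a ^ 2 * U + b ^ 2 * V - 2 * (a * b) * W| ≤ 5 * |d| * r) :
    6 * 10 ^ 10 ≤ r * N ^ 2 := by
  have ha1 := a_lo
  have ha2 := a_hi
  have hb1 := b_lo
  have hb2 := b_hi
  have hs0 := s_pos
  have hs1 := s_lo
  have hs2 := s_hi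
  have hD0 : 0 < |d| := abs_pos.2 hd
  obtain ⟨k, hk⟩ : ∃ k, k = 5 * |d| * r := ⟨_, rfl⟩
  rw [← hk] at b0 b1 b2
  have hk0 : 0 ≤ k := by rw [hk]; positivity
  have hss : (a - b) ^ 2 = 5 := by rw [a_sub, sq]; exact s_sq
  have bV : |5 * V| ≤ (a ^ 2 + a + 1) * k :=
    comb a U V W k (by linarith) _ (by linear_combination (-V) * hss) b0 b1 b2
  have bU : |5 * U| ≤ (b ^ 2 + b + 1) * k :=
    comb b U V W k (by linarith) _ (by linear_combination (-U) * hss) b0 b1 b2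
  have hb3 := b2_hi
  have ha3 := a2_hi
  rw [abs_mul, abs_of_pos (by norm_num : (0 : ℝ) < 5)] at bV bU
  have ca : (a ^ 2 + a + 1) * k ≤ 1004406 * k := mul_le_mul_of_nonneg_right (by linarith) hk0
  have cb : (b ^ 2 + b + 1) * k ≤ 999802 * k := mul_le_mul_of_nonneg_right (by linarith) hk0
  have bW : 2 * |W| ≤ 500000 * k := by
    have e : 2 * |W| = |(U + V) - (U + V - 2 * W)| := by
      rw [show (U + V) - (U + V - 2 * W) = 2 * W by ring, abs_mul,
        abs_of_pos (by norm_num : (0 : ℝ) < 2)]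
    rw [e]
    have e1 : |(U + V) - (U + V - 2 * W)| ≤ |U + V| + |U + V - 2 * W| := abs_sub _ _
    have e2 := abs_add_le U V
    linarith
  have hdle : |d| ≤ (|W| + |Z|) / 2 := by
    have e : s * |d| ≤ |W| + |Z| := by
      have e' : s * |d| = |s * d| := by rw [abs_mul, abs_of_pos hs0]
      rw [e', hsd]
      exact abs_sub _ _
    have e2 : 2 * |d| ≤ s * |d| := mul_le_mul_of_nonneg_right (by linarith) hD0.le
    linarith
  have hk1 : k ≤ |d| / 10 ^ 9 := by
    rw [hk]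
    have : |d| * r ≤ |d| * (1 / 10 ^ 10) := mul_le_mul_of_nonneg_left hr1 hD0.le
    norm_num at this ⊢
    linarith
  have hW0 := abs_nonneg W
  have hZ0 := abs_nonneg Z
  have hWle : |W| ≤ |Z| / 100 := by
    norm_num at hk1
    linarith
  have hW1 : |W| ≤ 1 / 10 := by
    by_contra hcon
    push Not at hcon
    have h1 : (1 / 10 : ℝ) * 10 < |W| * |Z| :=
      mul_lt_mul'' hcon (by linarith) (by norm_num) (by norm_num)
    linarith
  have hk2 : 789000 ≤ k := by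
    have e1 : |a ^ 2 * U + b ^ 2 * V| ≤ |a ^ 2 * U + b ^ 2 * V - 2 * (a * b) * W| +
        |2 * (a * b) * W| := by
      have := abs_add_le (a ^ 2 * U + b ^ 2 * V - 2 * (a * b) * W) (2 * (a * b) * W)
      rwa [sub_add_cancel] at this
    have e2 : |2 * (a * b) * W| = 2001998 * |W| := by
      rw [a_mul, abs_mul, abs_of_pos (by norm_num)]; norm_num
    rw [e2] at e1
    linarith
  have hdN : |d| * 447000 ≤ N ^ 2 := by
    have e1 : |x₁ * x₂| ≤ N ^ 2 := by
      rw [sq]; exact abs_le_mul hv0 hw0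
    have e2 : (447600 : ℝ) ≤ 1000999 / s := by
      rw [le_div_iff₀ hs0]; linarith
    have e3 : 447000 ≤ |x₁ * x₂ / d| := by
      have := abs_sub_abs_le_abs_sub (1000999 / s) (x₁ * x₂ / d)
      rw [abs_of_pos (by positivity), abs_sub_comm] at this
      have : (1 : ℝ) / 10 ^ 10 ≤ 1 := by norm_num
      linarith
    rw [abs_div, le_div_iff₀ hD0] at e3
    linarith
  rw [hk] at hk2
  have h9 := mul_le_mul_of_nonneg_left hdN hr
  norm_num at h9 ⊢
  linarith

/-- lower bound for the discrepancy of a pair of vectors of norm `±1` -/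
lemma lower (v w : Fin 2 → ℤ) (hv : nrm v = 1 ∨ nrm v = -1) (hw : nrm w = 1 ∨ nrm w = -1)
    (hd : det2 (toR v) (toR w) ≠ 0) (r N : ℝ) (hr : 0 ≤ r) (hr1 : r ≤ 1 / 10 ^ 10)
    (hv0 : |(v 0 : ℝ)| ≤ N) (hw0 : |(w 0 : ℝ)| ≤ N)
    (h0 : |coef (toR v) (toR w) 0 - coef pp qq 0| ≤ r)
    (h1 : |coef (toR v) (toR w) 1 - coef pp qq 1| ≤ r)
    (h2 : |coef (toR v) (toR w) 2 - coef pp qq 2| ≤ r) : 6 * 10 ^ 10 ≤ r * N ^ 2 := by
  have ha1 := a_lo
  have ha2 := a_hi
  have hb1 := b_lo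
  have hb2 := b_hi
  have hs0 := s_pos
  have hs1 := s_lo
  have hs2 := s_hi
  rw [coef_pq] at h0 h1 h2
  obtain ⟨x₁, hx₁⟩ : ∃ x : ℝ, x = v 0 := ⟨_, rfl⟩
  obtain ⟨y₁, hy₁⟩ : ∃ x : ℝ, x = v 1 := ⟨_, rfl⟩
  obtain ⟨x₂, hx₂⟩ : ∃ x : ℝ, x = w 0 := ⟨_, rfl⟩
  obtain ⟨y₂, hy₂⟩ : ∃ x : ℝ, x = w 1 := ⟨_, rfl⟩
  obtain ⟨d, hdd⟩ : ∃ d : ℝ, d = x₁ * y₂ - y₁ * x₂ := ⟨_, rfl⟩
  have hd' : det2 (toR v) (toR w) = d := by
    unfold det2 toR; rw [hdd, hx₁, hy₁, hx₂, hy₂]
  rw [hd'] at hd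
  have c0 : coef (toR v) (toR w) 0 = y₁ * y₂ / d := by
    unfold coef; rw [hd']; simp [toR, ← hy₁, ← hy₂]
  have c1 : coef (toR v) (toR w) 1 = -(y₁ * x₂ + x₁ * y₂) / d := by
    unfold coef; rw [hd']; simp [toR, ← hy₁, ← hy₂, ← hx₁, ← hx₂]
  have c2 : coef (toR v) (toR w) 2 = x₁ * x₂ / d := by
    unfold coef; rw [hd']; simp [toR, ← hx₁, ← hx₂]
  rw [c0] at h0
  rw [c1] at h1
  rw [c2] at h2
  simp only [Matrix.cons_val_zero, Matrix.cons_val_one, Matrix.cons_val] at h0 h1 h2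
  rw [← hx₁] at hv0
  rw [← hx₂] at hw0
  obtain ⟨E0, E1, E2⟩ := err x₁ y₁ x₂ y₂ d hdd hd
  obtain ⟨n₁, n₂⟩ : (x₁ - b * y₁) * (x₁ - a * y₁) = nrm v ∧
      (x₂ - b * y₂) * (x₂ - a * y₂) = nrm w := by
    rw [← nrm_eq, ← nrm_eq]
    unfold eta xi toR
    rw [hx₁, hy₁, hx₂, hy₂]
    exact ⟨rfl, rfl⟩
  -- the four products
  obtain ⟨U, hU⟩ : ∃ U, U = (x₁ - b * y₁) * (x₂ - b * y₂) := ⟨_, rfl⟩
  obtain ⟨V, hV⟩ : ∃ V, V = (x₁ - a * y₁) * (x₂ - a * y₂) := ⟨_, rfl⟩
  obtain ⟨W, hW⟩ : ∃ W, W = (x₁ - a * y₁) * (x₂ - b * y₂) := ⟨_, rfl⟩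
  obtain ⟨Z, hZ⟩ : ∃ Z, Z = (x₁ - b * y₁) * (x₂ - a * y₂) := ⟨_, rfl⟩
  rw [← hU, ← hV, ← hW] at E0 E1 E2
  have hnn : ((nrm v : ℝ) * nrm w = 1) ∨ ((nrm v : ℝ) * nrm w = -1) := by
    rcases hv with h | h <;> rcases hw with h' | h' <;> rw [h, h'] <;> norm_num
  have hUV : U * V = (nrm v : ℝ) * nrm w := by rw [hU, hV, ← n₁, ← n₂]; ring
  have hWZ : W * Z = (nrm v : ℝ) * nrm w := by rw [hW, hZ, ← n₁, ← n₂]; ring
  have hsd : s * d = W - Z := by rw [hW, hZ, hdd, ← a_sub]; ring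
  have hT : U + V = ((2 * v 0 * w 0 - 2001 * (v 0 * w 1 + v 1 * w 0) + 2002003 * v 1 * w 1 : ℤ) :
      ℝ) := by
    push_cast
    rw [hU, hV, ← hx₁, ← hy₁, ← hx₂, ← hy₂]
    linear_combination (-(x₁ * y₂ + y₁ * x₂) + (a + b + 2001) * (y₁ * y₂)) * a_add -
      2 * (y₁ * y₂) * a_mul
  have hS : U - V = s * ((v 0 * w 1 + v 1 * w 0 - 2001 * v 1 * w 1 : ℤ) : ℝ) := by
    push_cast
    rw [hU, hV, ← hx₁, ← hy₁, ← hx₂, ← hy₂, ← a_sub]
    linear_combination (-(a - b) * (y₁ * y₂)) * a_add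
  have hq := quad_lower U V (by rw [hUV]; exact hnn) _ _ hT hS
  -- bounds
  have hD0 : 0 < |d| := abs_pos.2 hd
  have b0 : |U + V - 2 * W| ≤ 5 * |d| * r := by
    rw [← E0, abs_mul, abs_mul, abs_of_pos (by norm_num : (0 : ℝ) < 5)]
    exact mul_le_mul_of_nonneg_left h0 (by positivity)
  have b1 : |-(2 * a * U + 2 * b * V - 2 * (a + b) * W)| ≤ 5 * |d| * r := by
    rw [← E1, abs_mul, abs_mul, abs_of_pos (by norm_num : (0 : ℝ) < 5)]
    exact mul_le_mul_of_nonneg_left h1 (by positivity)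
  have b2 : |a ^ 2 * U + b ^ 2 * V - 2 * (a * b) * W| ≤ 5 * |d| * r := by
    rw [← E2, abs_mul, abs_mul, abs_of_pos (by norm_num : (0 : ℝ) < 5)]
    exact mul_le_mul_of_nonneg_left h2 (by positivity)
  have hWZ1 : |W| * |Z| = 1 := by
    rw [← abs_mul, hWZ]
    rcases hnn with h | h <;> rw [h] <;> norm_num
  exact lower_real U V W Z d r N x₁ x₂ hd hr1 hr hWZ1 hsd hq hv0 hw0 h2 b0 b1 b2

/-! ### The good pairs -/

lemma fin_bound (d N : ℝ) (hN : 0 < N) (hd : 0 < d) (hdge : N ^ 2 ≤ 3168400 * d) (z : ℝ)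
    (hz : |5 * d * z| ≤ 10006) : |z| ≤ 10 ^ 10 / N ^ 2 := by
  rw [abs_mul, abs_mul, abs_of_pos (by norm_num : (0 : ℝ) < 5), abs_of_pos hd] at hz
  rw [le_div_iff₀ (by positivity)]
  have h1 := mul_le_mul_of_nonneg_left hdge (abs_nonneg z)
  have e : |z| * (3168400 * d) = 633680 * (5 * d * |z|) := by ring
  rw [e] at h1
  have h2 : 633680 * (5 * d * |z|) ≤ 633680 * 10006 :=
    mul_le_mul_of_nonneg_left hz (by norm_num)
  norm_num at h2 ⊢
  linarith

lemma upper (N : ℝ) (hN : 10 ^ 11 ≤ N) : ∃ v w : Fin 2 → ℤ, IntArr v w ∧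
    |(v 0 : ℝ)| ≤ N ∧ |(v 1 : ℝ)| ≤ N ∧ |(w 0 : ℝ)| ≤ N ∧ |(w 1 : ℝ)| ≤ N ∧
    maxAbs (coef pp qq - coef (toR v) (toR w)) ≤ 10 ^ 10 / N ^ 2 := by
  have ha1 := a_lo
  have ha2 := a_hi
  have hb1 := b_lo
  have hb2 := b_hi
  have hs0 := s_pos
  have hs1 := s_lo
  have hs2 := s_hi
  have hp0 := ph_pos
  have hp1 := ph_lo
  have hp2 := ph_hi
  obtain ⟨m, hm1, hm2⟩ := exists_nat_pow_near (x := N / 1100) (y := ph)
    (by rw [le_div_iff₀ (by norm_num)]; linarith) (by linarith)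
  obtain ⟨u, hu1, hu2⟩ := units m
  rw [zpow_natCast] at hu1 hu2
  obtain ⟨η, hη⟩ : ∃ η, η = ph ^ m := ⟨_, rfl⟩
  obtain ⟨ξ, hξ⟩ : ∃ ξ, ξ = ps ^ m := ⟨_, rfl⟩
  rw [pow_succ, ← hη] at hm2
  rw [← hη] at hm1 hu1
  rw [← hξ] at hu2
  have hN0 : 0 < N := by linarith
  have hη1 : η ≤ N / 1100 := hm1
  have hη2 : N ≤ 1780 * η := by
    rw [div_lt_iff₀ (by norm_num)] at hm2
    have hη0 : 0 < η := by rw [hη]; positivity
    have h1 : η * ph ≤ η * 1.61805 := mul_le_mul_of_nonneg_left hp2.le hη0.le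
    linarith
  have hη3 : 10 ^ 7 ≤ η := by linarith
  have hprod : |η * ξ| = 1 := by
    rw [hη, hξ, ← mul_pow, ph_mul]; simp
  have hn : |(nrm u : ℝ)| = 1 := by rw [← nrm_eq, hu1, hu2]; exact hprod
  have hnz : nrm u = 1 ∨ nrm u = -1 := by
    have : |nrm u| = 1 := by exact_mod_cast hn
    exact eq_or_eq_neg_of_abs_eq this
  have hξ1 : η * |ξ| = 1 := by
    rw [abs_mul, abs_of_pos (by linarith)] at hprod; exact hprod
  have hξ0 := abs_nonneg ξ
  have hξ2 : |ξ| ≤ 1 / 10 ^ 7 := by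
    by_contra hcon
    push Not at hcon
    have h1 : (10 : ℝ) ^ 7 * (1 / 10 ^ 7) < η * |ξ| :=
      mul_lt_mul' hη3 hcon (by norm_num) (by linarith)
    rw [hξ1] at h1
    norm_num at h1
  have p1 : a * η ≤ 1001.7 * (N / 1100) := mul_le_mul ha2.le hη1 (by linarith) (by norm_num)
  have p2 : b * |ξ| ≤ 999.4 * (1 / 10 ^ 7) := mul_le_mul hb2.le hξ2 hξ0 (by norm_num)
  have p3 : b * η ≤ 999.4 * (N / 1100) := mul_le_mul hb2.le hη1 (by linarith) (by norm_num)
  have p4 : |a * ξ| ≤ 1001.7 * (1 / 10 ^ 7) :=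
    abs_le_mul (by rw [abs_of_pos (by linarith)]; exact ha2.le) hξ2
  have p5 : 0 ≤ b * η := mul_nonneg (by linarith) (by linarith)
  have p6 := abs_le.1 p4
  norm_num at p1 p2 p3 p6
  obtain ⟨x, hx⟩ : ∃ x : ℝ, x = u 0 := ⟨_, rfl⟩
  obtain ⟨y, hy⟩ : ∃ x : ℝ, x = u 1 := ⟨_, rfl⟩
  have e1 : x - b * y = η := by rw [← hu1]; unfold eta toR; rw [hx, hy]
  have e2 : x - a * y = ξ := by rw [← hu2]; unfold xi toR; rw [hx, hy]
  obtain ⟨w, hw⟩ : ∃ w : Fin 2 → ℤ, w = ![2001 * u 0 - 2002003 * u 1, 2 * u 0 - 2001 * u 1] :=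
    ⟨_, rfl⟩
  have hw0 : (w 0 : ℝ) = a * ξ + b * η := by
    rw [hw]
    simp only [Matrix.cons_val_zero]
    push_cast
    rw [← hx, ← hy, ← e1, ← e2]
    linear_combination (-x + (a + b + 2001) * y) * a_add - 2 * y * a_mul
  have hw1 : (w 1 : ℝ) = η + ξ := by
    rw [hw]
    simp only [Matrix.cons_val_one]
    push_cast
    rw [← hx, ← hy, ← e1, ← e2]
    linear_combination y * a_add
  have f1 : (w 0 : ℝ) - b * w 1 = s * ξ := by rw [hw0, hw1, ← a_sub]; ring
  have f2 : (w 0 : ℝ) - a * w 1 = -(s * η) := by rw [hw0, hw1, ← a_sub]; ring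
  have hsx : s * x = a * η - b * ξ := by rw [← e1, ← e2, ← a_sub]; ring
  have hsy : s * y = η - ξ := by rw [← e1, ← e2, ← a_sub]; ring
  have hξle := abs_le.1 hξ2
  obtain ⟨d, hd⟩ : ∃ d : ℝ, d = x * w 1 - y * w 0 := ⟨_, rfl⟩
  have hdval : d = η ^ 2 + ξ ^ 2 := by
    have : s * d = s * (η ^ 2 + ξ ^ 2) := by
      rw [hd, ← a_sub]
      have : (a - b) * (x * w 1 - y * w 0) = (x - a * y) * (w 0 - b * w 1) -
        (x - b * y) * (w 0 - a * w 1) := by ring
      rw [this, e1, e2, f1, f2, a_sub]; ring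
    exact mul_left_cancel₀ hs0.ne' this
  have hdpos : 0 < d := by rw [hdval]; positivity
  have hd' : det2 (toR u) (toR w) = d := by
    unfold det2 toR; rw [hd, hx, hy]
  refine ⟨u, w, ⟨?_, ?_, by rw [hd']; exact hdpos.ne'⟩, ?_, ?_, ?_, ?_, ?_⟩
  · -- coprimality of `u`
    unfold nrm at hnz
    rcases hnz with h | h
    · exact ⟨u 0 - 2001 * u 1, 1000999 * u 1, by linear_combination h⟩
    · exact ⟨-(u 0 - 2001 * u 1), -(1000999 * u 1), by linear_combination -h⟩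
  · -- coprimality of `w`
    have hnw : nrm w = -5 * nrm u := by
      unfold nrm; rw [hw]
      simp only [Matrix.cons_val_zero, Matrix.cons_val_one]
      ring
    rw [Int.isCoprime_iff_gcd_eq_one]
    obtain ⟨g, hg⟩ : ∃ g : ℕ, g = Int.gcd (w 0) (w 1) := ⟨_, rfl⟩
    have g1 : (g : ℤ) ∣ w 0 := by rw [hg]; exact Int.gcd_dvd_left ..
    have g2 : (g : ℤ) ∣ w 1 := by rw [hg]; exact Int.gcd_dvd_right ..
    have g3 : (g : ℤ) * g ∣ nrm w := by
      obtain ⟨α, hα⟩ := g1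
      obtain ⟨β, hβ⟩ := g2
      refine ⟨α ^ 2 - 2001 * α * β + 1000999 * β ^ 2, ?_⟩
      unfold nrm; rw [hα, hβ]; ring
    have g4 : (g : ℤ) * g ∣ 5 := by
      rw [hnw] at g3
      rcases hnz with h | h <;> rw [h] at g3
      · exact (dvd_neg.2 g3).trans (by norm_num)
      · exact g3.trans (by norm_num)
    have g5 : g * g ∣ 5 := by exact_mod_cast g4
    have g6 : g ≤ 2 := by
      have := Nat.le_of_dvd (by norm_num) g5
      nlinarith
    rw [← hg]
    interval_cases g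
    · simp at g5
    · rfl
    · norm_num at g5
  · rw [← hx]
    have h1 : s * |x| ≤ a * η + b * |ξ| := by
      have h2 : s * |x| = |s * x| := by rw [abs_mul, abs_of_pos hs0]
      rw [h2, hsx]
      have := abs_sub (a * η) (b * ξ)
      rwa [abs_mul, abs_mul, abs_of_pos (by linarith : 0 < a), abs_of_pos (by linarith : 0 < η),
        abs_of_pos (by linarith : 0 < b)] at this
    have h3 : 2 * |x| ≤ s * |x| := mul_le_mul_of_nonneg_right (by linarith) (abs_nonneg x)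
    linarith [abs_nonneg x]
  · rw [← hy]
    have h1 : s * |y| ≤ η + |ξ| := by
      have h2 : s * |y| = |s * y| := by rw [abs_mul, abs_of_pos hs0]
      rw [h2, hsy]
      have := abs_sub η ξ
      rwa [abs_of_pos (by linarith : 0 < η)] at this
    have h3 : 2 * |y| ≤ s * |y| := mul_le_mul_of_nonneg_right (by linarith) (abs_nonneg y)
    linarith [abs_nonneg y]
  · rw [hw0, abs_le]
    constructor <;> linarith [p6.1, p6.2]
  · rw [hw1, abs_le]
    constructor <;> linarith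
  · -- the discrepancy
    have c0 : coef (toR u) (toR w) 0 = y * w 1 / d := by
      unfold coef; rw [hd']; simp [toR, ← hy]
    have c1 : coef (toR u) (toR w) 1 = -(y * w 0 + x * w 1) / d := by
      unfold coef; rw [hd']; simp [toR, ← hy, ← hx]
    have c2 : coef (toR u) (toR w) 2 = x * w 0 / d := by
      unfold coef; rw [hd']; simp [toR, ← hx]
    obtain ⟨E0, E1, E2⟩ := err x y (w 0) (w 1) d hd hdpos.ne'
    rw [e1, e2, f1, f2] at E0 E1 E2
    have hn' : η * ξ ≤ 1 ∧ -1 ≤ η * ξ := by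
      have := abs_le.1 hprod.le
      exact ⟨this.2, this.1⟩
    have hξ3 : ξ * ξ ≤ 1 / 10 ^ 14 := by
      have h1 : |ξ| * |ξ| ≤ 1 / 10 ^ 7 * (1 / 10 ^ 7) :=
        mul_le_mul hξ2 hξ2 hξ0 (by norm_num)
      rw [abs_mul_abs_self] at h1
      norm_num at h1 ⊢
      linarith
    have hξ4 : 0 ≤ ξ * ξ := mul_self_nonneg ξ
    have hsξ : s * (ξ * ξ) ≤ 1 / 10 ^ 13 := by
      have : s * (ξ * ξ) ≤ 2.2361 * (1 / 10 ^ 14) := mul_le_mul hs2.le hξ3 hξ4 (by norm_num)
      norm_num at this ⊢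
      linarith
    have hsξ0 : 0 ≤ s * (ξ * ξ) := mul_nonneg hs0.le hξ4
    have hab := a_mul
    have hadd := a_add
    have hsub := a_sub
    have hsq := s_sq
    have q0 : |5 * d * (y * w 1 / d - 1 / s)| ≤ 10006 := by
      rw [E0]
      have e : η * (s * ξ) + ξ * -(s * η) - 2 * (ξ * (s * ξ)) = -2 * (s * (ξ * ξ)) := by ring
      rw [e, abs_le]
      constructor <;> linarith
    have q1 : |5 * d * (-(y * w 0 + x * w 1) / d - -2001 / s)| ≤ 10006 := by
      rw [E1]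
      have e : -(2 * a * (η * (s * ξ)) + 2 * b * (ξ * -(s * η)) - 2 * (a + b) * (ξ * (s * ξ))) =
          -(10 * (η * ξ)) + 4002 * (s * (ξ * ξ)) := by
        have h5 : (a - b) * s = 5 := by rw [hsub]; exact hsq
        linear_combination (-2 * η * ξ) * h5 + (2 * s * ξ * ξ) * hadd
      rw [e, abs_le]
      constructor <;> linarith
    have q2 : |5 * d * (x * w 0 / d - 1000999 / s)| ≤ 10006 := by
      rw [E2]
      have e : a ^ 2 * (η * (s * ξ)) + b ^ 2 * (ξ * -(s * η)) - 2 * (a * b) * (ξ * (s * ξ)) =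
          10005 * (η * ξ) - 2001998 * (s * (ξ * ξ)) := by
        have h5 : (a ^ 2 - b ^ 2) * s = 10005 := by
          have : (a ^ 2 - b ^ 2) * s = (a - b) * (a + b) * s := by ring
          rw [this, hsub, hadd]; linear_combination 2001 * hsq
        linear_combination (η * ξ) * h5 - (2 * s * ξ * ξ) * hab
      rw [e, abs_le]
      constructor <;> linarith
    have hdge : N ^ 2 ≤ 3168400 * d := by
      rw [hdval]
      have h1 := pow_le_pow_left₀ hN0.le hη2 2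
      rw [mul_pow] at h1
      norm_num at h1
      linarith [sq_nonneg ξ]
    have fin := fin_bound d N (by linarith) hdpos hdge
    rw [coef_pq]
    unfold maxAbs
    simp only [Pi.sub_apply, c0, c1, c2]
    simp only [Matrix.cons_val_zero, Matrix.cons_val_one, Matrix.cons_val]
    rw [abs_sub_comm (1 / s), abs_sub_comm (-2001 / s), abs_sub_comm (1000999 / s)]
    exact max_le (fin _ q0) (max_le (fin _ q1) (fin _ q2))

/-! ### Existence of best approximations -/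

lemma exists_best (N : ℕ) (hN : 1 ≤ N) : ∃ v w, IsBest pp qq N v w := by
  have hfin : {vw : (Fin 2 → ℤ) × (Fin 2 → ℤ) | IntArr vw.1 vw.2 ∧ size vw.1 vw.2 ≤ N}.Finite := by
    have hfin' : (Set.Icc (fun _ => -(N : ℤ) : Fin 2 → ℤ) (fun _ => (N : ℤ))).Finite :=
      Set.finite_Icc _ _
    apply (hfin'.prod hfin').subset
    rintro ⟨v, w⟩ ⟨-, h⟩
    simp only [size, max_le_iff, abs_le] at h
    obtain ⟨⟨h1, h2⟩, h3, h4⟩ := h
    refine ⟨⟨?_, ?_⟩, ?_, ?_⟩ <;> intro i <;> fin_cases i <;> simp <;> omega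
  have hne : {vw : (Fin 2 → ℤ) × (Fin 2 → ℤ) | IntArr vw.1 vw.2 ∧
      size vw.1 vw.2 ≤ N}.Nonempty := by
    refine ⟨(![1, 0], ![0, 1]), ⟨?_, ?_, ?_⟩, ?_⟩
    · exact ⟨1, 0, by simp⟩
    · exact ⟨0, 1, by simp⟩
    · simp [det2, toR]
    · simp [size]; omega
  obtain ⟨⟨v, w⟩, ⟨h1, h2⟩, h3⟩ := Set.exists_min_image _
    (fun vw : (Fin 2 → ℤ) × (Fin 2 → ℤ) => rho pp qq (toR vw.1) (toR vw.2)) hfin hne
  exact ⟨v, w, h1, h2, fun v' w' h4 h5 => h3 (v', w') ⟨h4, h5⟩⟩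

/-! ### The arrangement is algebraic -/

lemma algebraic : IsAlgebraicArr pp qq := by
  refine ⟨!![1001, -1000999; 1, -1000], ?_, ?_, ph, ps, ?_, ?_⟩
  · rw [Matrix.det_fin_two_of]; norm_num
  · rw [Matrix.charpoly_fin_two, Matrix.trace_fin_two_of, Matrix.det_fin_two_of]
    norm_num
    have hmon : (X ^ 2 - X - 1 : ℚ[X]).Monic := by monicity!
    have hdeg : (X ^ 2 - X - 1 : ℚ[X]).natDegree = 2 := by compute_degree!
    have e : (X ^ 2 - X + -1 : ℚ[X]) = X ^ 2 - X - 1 := by ring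
    rw [e]
    rw [hmon.irreducible_iff_roots_eq_zero_of_degree_le_three (by rw [hdeg]) (by rw [hdeg]; norm_num)]
    rw [Multiset.eq_zero_iff_forall_notMem]
    intro x hx
    rw [mem_roots hmon.ne_zero] at hx
    simp only [IsRoot.def, eval_sub, eval_pow, eval_X, eval_one] at hx
    have h5 : (2 * x - 1) ^ 2 = 5 := by linear_combination 4 * hx
    have h6 : IsSquare (5 : ℚ) := ⟨2 * x - 1, by rw [← h5]; ring⟩
    rw [show (5 : ℚ) = ((5 : ℕ) : ℚ) by norm_num, Rat.isSquare_natCast_iff] at h6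
    obtain ⟨r, hr⟩ := h6
    have : r ≤ 2 := by nlinarith
    interval_cases r <;> omega
  · funext i
    have h1 := ph_add
    have h2 := ph_mul
    have e2 : ph * ph = ph + 1 := by
      have h4 : ps = 1 - ph := by linarith
      rw [h4] at h2; linarith
    fin_cases i
    · simp [Matrix.mulVec, dotProduct, Fin.sum_univ_two, pp, a]
      linear_combination -e2
    · simp [Matrix.mulVec, dotProduct, Fin.sum_univ_two, pp, a]
  · funext i
    have h1 := ph_add
    have h2 := ph_mul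
    have e2 : ps * ps = ps + 1 := by
      have h4 : ph = 1 - ps := by linarith
      rw [h4] at h2; linarith
    fin_cases i
    · simp [Matrix.mulVec, dotProduct, Fin.sum_univ_two, qq, b]
      linear_combination -e2
    · simp [Matrix.mulVec, dotProduct, Fin.sum_univ_two, qq, b]

/-! ### The theorem -/

lemma coef_swap (p q : Fin 2 → ℝ) (i : Fin 3) : coef q p i = -coef p q i := by
  have h : det2 q p = -det2 p q := by unfold det2; ring
  fin_cases i
  · simp [coef, h, div_neg, mul_comm]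
  · simp only [coef, h]
    simp
    ring
  · simp [coef, h, div_neg, mul_comm]

/-- There is an algebraic arrangement `R` such that for all sufficiently large `N` the best
approximations `R_N` exist, and every one of them has a primitive vector that does not lie on the
geometric continued fraction of `R`. -/
theorem result : ∃ p q : Fin 2 → ℝ, det2 p q ≠ 0 ∧ IsAlgebraicArr p q ∧
    ∃ N₀ : ℕ, ∀ N : ℕ, N₀ ≤ N → (∃ v w, IsBest p q N v w) ∧
      ∀ v w, IsBest p q N v w → ¬ (toR v ∈ gcf p q ∧ toR w ∈ gcf p q) := by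
  refine ⟨pp, qq, by rw [det_pq]; exact s_pos.ne', algebraic, 10 ^ 11, fun N hN =>
    ⟨exists_best N (by omega), ?_⟩⟩
  rintro v w ⟨⟨hv, hw, hd⟩, hsize, hmin⟩ ⟨hgv, hgw⟩
  have hNR : (10 : ℝ) ^ 11 ≤ N := by exact_mod_cast hN
  have nv := norm_one v hv hgv
  have nw := norm_one w hw hgw
  obtain ⟨v', w', hvw, i1, i2, i3, i4, hle⟩ := upper N hNR
  have hsize' : size v' w' ≤ N := by
    simp only [size, max_le_iff]
    exact ⟨⟨by exact_mod_cast i1, by exact_mod_cast i2⟩, by exact_mod_cast i3,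
      by exact_mod_cast i4⟩
  have h1 := hmin v' w' hvw hsize'
  have h2 : rho pp qq (toR v') (toR w') ≤ 10 ^ 10 / (N : ℝ) ^ 2 := le_trans (min_le_right _ _) hle
  have h3 := h1.trans h2
  obtain ⟨r, hr⟩ : ∃ r : ℝ, r = 10 ^ 10 / (N : ℝ) ^ 2 := ⟨_, rfl⟩
  rw [← hr] at h3
  have hN0 : (0 : ℝ) < N := by linarith
  have hr0 : 0 ≤ r := by rw [hr]; positivity
  have hr1 : r ≤ 1 / 10 ^ 10 := by
    rw [hr, div_le_div_iff₀ (by positivity) (by norm_num)]
    nlinarith
  have hrN : r * (N : ℝ) ^ 2 = 10 ^ 10 := by rw [hr]; field_simp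
  simp only [size, max_le_iff] at hsize
  have hv0 : |(v 0 : ℝ)| ≤ N := by exact_mod_cast hsize.1.1
  have hw0 : |(w 0 : ℝ)| ≤ N := by exact_mod_cast hsize.2.1
  have hcon : 6 * 10 ^ 10 ≤ r * (N : ℝ) ^ 2 := by
    rcases min_le_iff.1 h3 with h | h
    · simp only [maxAbs, max_le_iff, Pi.add_apply] at h
      obtain ⟨g0, g1, g2⟩ := h
      have hd2 : det2 (toR w) (toR v) ≠ 0 := by
        have e : det2 (toR w) (toR v) = -det2 (toR v) (toR w) := by unfold det2; ring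
        rw [e]; exact neg_ne_zero.2 hd
      refine lower w v nw nv hd2 r N hr0 hr1 hw0 hv0 ?_ ?_ ?_
      · rw [coef_swap, abs_sub_comm, sub_neg_eq_add]; exact g0
      · rw [coef_swap, abs_sub_comm, sub_neg_eq_add]; exact g1
      · rw [coef_swap, abs_sub_comm, sub_neg_eq_add]; exact g2
    · simp only [maxAbs, max_le_iff, Pi.sub_apply] at h
      obtain ⟨g0, g1, g2⟩ := h
      refine lower v w nv nw hd r N hr0 hr1 hv0 hw0 ?_ ?_ ?_
      · rw [abs_sub_comm]; exact g0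
      · rw [abs_sub_comm]; exact g1
      · rw [abs_sub_comm]; exact g2
  rw [hrN] at hcon
  norm_num at hcon

end Pool.Agent.Results.MP_b5c594_nt.OffTheSails
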